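import Mathlib
import Pool.Agent.V5helper28.SSK.Defs

/-!
# JOB B (Baire category) of the hand-in on Kakeya sets and self-similar families of lines
-/

set_option autoImplicit false

namespace Pool.Agent.V5helper72.SSK

open MeasureTheory Set
open Pool.Agent.V5helper28.SSK

variable {d : ℕ} {I : Type}

/-- Deep cylinders around a point of the attractor. -/
theorem deep [Fintype I] [Nonempty I] (R : I → ℝ) (b : I → E d × E d)
    (Γ : Set (E d × E d)) (hR : ∀ i, 0 < R i ∧ R i < 1)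
    (hΓ : Γ = ⋃ i, (fun z => R i • z + b i) '' Γ) (ρ : ℝ) (hρ : ∀ i, R i ≤ ρ) (hρ0 : 0 < ρ)
    (n : ℕ) : ∀ z ∈ Γ, ∃ (R' : ℝ) (b' : E d × E d), 0 < R' ∧ R' ≤ ρ ^ n ∧
      (∀ w ∈ Γ, R' • w + b' ∈ Γ) ∧ ∃ w ∈ Γ, z = R' • w + b' := by
  induction n with
  | zero =>
    intro z hz
    refine ⟨1, 0, one_pos, by simp, fun w hw => by simpa using hw, z, hz, by simp⟩
  | succ n ih =>
    intro z hz
    obtain ⟨R', b', h0, h1, h2, w, hw, h3⟩ := ih z hz
    rw [hΓ] at hw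
    obtain ⟨i, u, hu, rfl⟩ := mem_iUnion.1 hw
    refine ⟨R' * R i, R' • b i + b', mul_pos h0 (hR i).1, ?_, ?_, u, hu, ?_⟩
    · rw [pow_succ]
      exact mul_le_mul h1 (hρ i) (hR i).1.le (pow_nonneg hρ0.le n)
    · intro w hw
      have : R i • w + b i ∈ Γ := by
        rw [hΓ]
        exact mem_iUnion.2 ⟨i, w, hw, rfl⟩
      have h := h2 _ this
      rw [smul_add, smul_smul, add_assoc] at h
      exact h
    · rw [h3]
      simp only [smul_add, smul_smul, add_assoc]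

theorem continuous_pt : Continuous fun p : ℝ × E d => (pt p.1 p.2 : E (d + 1)) := by
  unfold pt
  refine (PiLp.continuous_toLp 2 _).comp ?_
  refine continuous_pi fun i => ?_
  refine Fin.cases ?_ (fun j => ?_) i
  · simpa using continuous_fst
  · simp only [Fin.cons_succ]
    exact (EuclideanSpace.proj (𝕜 := ℝ) j).continuous.comp continuous_snd

theorem jobB : JobB := by
  classical
  intro d I _ _ R b Γ hR hne hcomp hΓ K hK hseg
  -- the maximal ratio
  obtain ⟨i₀, hi₀⟩ := Finite.exists_max R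
  set ρ := R i₀ with hρ
  have hρ0 : 0 < ρ := (hR i₀).1
  have hρ1 : ρ < 1 := (hR i₀).2
  -- Baire
  have : CompactSpace Γ := isCompact_iff_compactSpace.1 hcomp
  have : Nonempty Γ := hne.to_subtype
  let F : ℚ × ℚ → Set Γ := fun p =>
    if (p.1 : ℝ) < p.2 then {z : Γ | ∀ t ∈ Icc (p.1 : ℝ) (p.2 : ℝ), pt t (z.1.2 + t • z.1.1) ∈ K}
    else ∅
  have hFp : ∀ p : ℚ × ℚ, (p.1 : ℝ) < p.2 → F p =
      {z : Γ | ∀ t ∈ Icc (p.1 : ℝ) (p.2 : ℝ), pt t (z.1.2 + t • z.1.1) ∈ K} :=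
    fun p hp => if_pos hp
  have hFn : ∀ p : ℚ × ℚ, ¬ (p.1 : ℝ) < p.2 → F p = ∅ := fun p hp => if_neg hp
  have hFc : ∀ p, IsClosed (F p) := by
    intro p
    by_cases hp : (p.1 : ℝ) < p.2
    · have : F p = ⋂ t ∈ Icc (p.1 : ℝ) (p.2 : ℝ), {z : Γ | pt t (z.1.2 + t • z.1.1) ∈ K} := by
        rw [hFp p hp]
        ext z
        simp only [mem_ofPred_eq, mem_iInter]
      rw [this]
      refine isClosed_biInter fun t _ => hK.preimage ?_
      refine continuous_pt.comp (continuous_const.prodMk ?_)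
      exact (continuous_snd.comp continuous_subtype_val).add
        ((continuous_fst.comp continuous_subtype_val).const_smul t)
    · rw [hFn p hp]
      exact isClosed_empty
  have hFU : (⋃ p, F p) = univ := by
    refine eq_univ_of_forall fun z => ?_
    obtain ⟨t₁, t₂, h12, h⟩ := hseg z.1 z.2
    obtain ⟨p, hp1, hp2⟩ := exists_rat_btwn h12
    obtain ⟨q, hq1, hq2⟩ := exists_rat_btwn hp2
    refine mem_iUnion.2 ⟨(p, q), ?_⟩
    rw [hFp (p, q) hq1]
    intro t ht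
    exact h t ⟨hp1.le.trans ht.1, ht.2.trans hq2.le⟩
  obtain ⟨p, z₀, hz₀⟩ := nonempty_interior_of_iUnion_of_closed hFc hFU
  have hpp : (p.1 : ℝ) < p.2 := by
    by_contra hcon
    rw [hFn p hcon, interior_empty] at hz₀
    exact hz₀
  obtain ⟨ε, hε, hball⟩ := Metric.mem_nhds_iff.1 (mem_interior_iff_mem_nhds.1 hz₀)
  -- a small cylinder
  obtain ⟨D, hD⟩ := hcomp.isBounded.exists_norm_le
  have hDpos : 0 ≤ D := (norm_nonneg _).trans (hD _ z₀.2)
  obtain ⟨n, hn⟩ : ∃ n : ℕ, ρ ^ n * (2 * D + 1) < ε := by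
    obtain ⟨n, hn⟩ := exists_pow_lt_of_lt_one (div_pos hε (by linarith : (0 : ℝ) < 2 * D + 1)) hρ1
    exact ⟨n, by rwa [lt_div_iff₀ (by linarith)] at hn⟩
  obtain ⟨R', b', h0, h1, h2, w, hw, h3⟩ := deep R b Γ hR hΓ ρ hi₀ hρ0 n z₀.1 z₀.2
  refine ⟨R', b', p.1, p.2, h0, hpp, ?_⟩
  intro z hz t ht
  have hmem : (⟨R' • z + b', h2 z hz⟩ : Γ) ∈ F p := by
    apply hball
    rw [Metric.mem_ball, Subtype.dist_eq, dist_eq_norm, h3]
    have : R' • z + b' - (R' • w + b') = R' • (z - w) := by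
      rw [smul_sub]; abel
    rw [this, norm_smul, Real.norm_of_nonneg h0.le]
    have hzw : ‖z - w‖ ≤ 2 * D + 1 := by
      have := norm_sub_le z w
      linarith [hD z hz, hD w hw]
    calc R' * ‖z - w‖ ≤ ρ ^ n * (2 * D + 1) :=
          mul_le_mul h1 hzw (norm_nonneg _) (pow_nonneg hρ0.le n)
      _ < ε := hn
  rw [hFp p hpp] at hmem
  exact hmem t ht

end Pool.Agent.V5helper72.SSK

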